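import Pool.Agent.Lib.MP_72b724_gt.Interfaces

/-!
# MP_72b724_gt, module STAGE: the stages of the tower, from the combinatorial homotopy addition
theorem
-/

open scoped BigOperators

namespace Pool.Agent.Lib.MP_72b724_gt.H65

open Pool.Agent.Lib.MP_72b724_gt

/-- A simplex with trivial faces: maps which miss a vertex give the base point. -/
theorem map_of_miss {S : SimpSet} {P : S.Pt} {m : ℕ} {x : S.X (m + 1)}
    (h : ∀ i : Fin (m + 2), S.d i x = P.pt m) {j : ℕ} (g : Fin (j + 1) →o Fin (m + 1 + 1))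
    (i : Fin (m + 2)) (hi : ∀ a, g a ≠ i) : S.map g x = P.pt j := by
  have h1 : ∀ a, ∃ b, i.succAbove b = g a := fun a => Fin.exists_succAbove_eq (hi a)
  choose g' hg' using h1
  have hmono : Monotone g' := by
    intro a b hab
    have := g.monotone hab
    rw [← hg' a, ← hg' b] at this
    exact (Fin.strictMono_succAbove i).le_iff_le.mp this
  have h2 : g = (cofc i).comp ⟨g', hmono⟩ := by
    ext a
    have := hg' a
    simp only [cofc, OrderHom.comp_coe, Function.comp_apply, OrderEmbedding.toOrderHom_coe,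
      Fin.succAboveOrderEmb_apply, OrderHom.coe_mk]
    rw [this]
  rw [h2, ← S.map_comp]
  have h3 : S.map (cofc i) x = P.pt m := h i
  rw [h3]
  exact P.map_pt _

theorem triv_of_faces {S : SimpSet} {P : S.Pt} {m : ℕ} {x : S.X (m + 1)}
    (h : ∀ i : Fin (m + 2), S.d i x = P.pt m) : S.Triv P (m + 1) x := by
  intro j g hj
  obtain ⟨i, hi⟩ : ∃ i : Fin (m + 2), ∀ a, g a ≠ i := by
    by_contra hcon
    push Not at hcon
    have hs : Function.Surjective g := hcon
    have := Fintype.card_le_of_surjective g hs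
    simp at this
    omega
  exact map_of_miss h g i hi

theorem faces_of_triv {S : SimpSet} {P : S.Pt} {m : ℕ} {x : S.X (m + 1)}
    (h : S.Triv P (m + 1) x) (i : Fin (m + 2)) : S.d i x = P.pt m :=
  h m (cofc i) (Nat.lt_succ_self m)

/-- The faces of a face of `z` lie in the other faces. -/
theorem face_faces {S : SimpSet} {n : ℕ} (z : S.X (n + 2)) (i : Fin (n + 3)) (c : S.X n)
    (h : ∀ j, j ≠ i → ∀ l : Fin (n + 2), S.d l (S.d j z) = c) (l : Fin (n + 2)) :
    S.d l (S.d i z) = c := by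
  rcases le_or_gt i l.castSucc with hl | hl
  · have hi : (i : ℕ) < n + 2 := by
      have := Fin.le_def.mp hl
      rw [Fin.val_castSucc] at this
      omega
    have e : i = (⟨i, hi⟩ : Fin (n + 2)).castSucc := rfl
    have hle : (⟨i, hi⟩ : Fin (n + 2)) ≤ l := by
      have := Fin.le_def.mp hl
      rw [Fin.val_castSucc] at this
      exact this
    rw [e, ← S.dd _ _ hle z]
    refine h _ ?_ _
    intro he
    have := congrArg Fin.val he
    rw [Fin.val_succ] at this
    have h2 := Fin.le_def.mp hl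
    rw [Fin.val_castSucc] at h2
    omega
  · have hi : i ≠ 0 := by
      rintro rfl
      exact absurd hl (Fin.not_lt_zero _)
    obtain ⟨j, rfl⟩ := Fin.exists_succ_eq.mpr hi
    have hle : l ≤ j := by
      have := Fin.lt_def.mp hl
      rw [Fin.val_castSucc, Fin.val_succ] at this
      exact Fin.le_def.mpr (by omega)
    rw [S.dd _ _ hle z]
    exact h _ hl.ne _

section Main

variable (S : SimpSet) (P : S.Pt) (m : ℕ)

/-- Spheres: simplices with trivial faces. -/
abbrev Sph : Type := {x : S.X (m + 2) // ∀ i : Fin (m + 3), S.d i x = P.pt (m + 1)}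

/-- Boundaries. -/
def IsBd (x : Fin (m + 2 + 2) → Sph S P m) : Prop :=
  ∃ y : S.X (m + 3), ∀ i, S.d i y = (x i).1

variable {S P m}

theorem hyp1 (hK : S.Kan) (i : Fin (m + 2 + 2)) (x : Fin (m + 2 + 2) → Sph S P m) :
    ∃ a : Sph S P m, IsBd S P m (Function.update x i a) := by
  obtain ⟨z, hz⟩ := hK (m + 1) i (fun j => (x j).1) (by
    intro i' j' _ _ _
    rw [(x _).2, (x _).2])
  have hf : ∀ l : Fin (m + 3), S.d l (S.d i z) = P.pt (m + 1) := by
    apply face_faces z i
    intro j hj l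
    rw [hz j hj]
    exact (x j).2 l
  refine ⟨⟨S.d i z, hf⟩, z, ?_⟩
  intro j
  by_cases hj : j = i
  · subst hj
    rw [Function.update_self]
  · rw [Function.update_of_ne hj]
    exact hz j hj

theorem hyp2 (hK : S.Kan) (y : Fin (m + 2 + 3) → Fin (m + 2 + 3) → Sph S P m)
    (hsym : ∀ i j, y i j = y j i) (j₀ : Fin (m + 2 + 3))
    (h : ∀ j, j ≠ j₀ → IsBd S P m (fun i => y j (j.succAbove i))) :
    IsBd S P m (fun i => y j₀ (j₀.succAbove i)) := by
  have h' : ∀ j, ∃ z : S.X (m + 3), j ≠ j₀ → ∀ i, S.d i z = (y j (j.succAbove i)).1 := by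
    intro j
    by_cases hj : j = j₀
    · exact ⟨P.pt _, fun h => absurd hj h⟩
    · obtain ⟨z, hz⟩ := h j hj
      exact ⟨z, fun _ => hz⟩
  choose z hz using h'
  have e1 : ∀ (i j : Fin (m + 2 + 2)), i ≤ j → j.succ.succAbove i = i.castSucc := by
    intro i j hij
    exact Fin.succAbove_of_castSucc_lt _ _ (Fin.castSucc_lt_succ_iff.mpr hij)
  have e2 : ∀ (i j : Fin (m + 2 + 2)), i ≤ j → i.castSucc.succAbove j = j.succ := by
    intro i j hij
    exact Fin.succAbove_of_le_castSucc _ _ (Fin.castSucc_le_castSucc_iff.mpr hij)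
  obtain ⟨w, hw⟩ := hK (m + 2) j₀ z (by
    intro i j hij hi hj
    rw [hz _ hj i, hz _ hi j, e1 i j hij, e2 i j hij, hsym])
  refine ⟨S.d j₀ w, ?_⟩
  intro i
  change S.d i (S.d j₀ w) = (y j₀ (j₀.succAbove i)).1
  rcases le_or_gt j₀ i.castSucc with hl | hl
  · have hi : (j₀ : ℕ) < m + 4 := by
      have := Fin.le_def.mp hl
      rw [Fin.val_castSucc] at this
      omega
    obtain ⟨j', rfl⟩ : ∃ j' : Fin (m + 4), j₀ = j'.castSucc := ⟨⟨j₀, hi⟩, rfl⟩
    have hle : j' ≤ i := Fin.castSucc_le_castSucc_iff.mp hl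
    rw [e2 j' i hle, ← S.dd _ _ hle w]
    have hne : i.succ ≠ j'.castSucc := by
      intro he
      have := congrArg Fin.val he
      rw [Fin.val_succ, Fin.val_castSucc] at this
      have h2 := Fin.le_def.mp hle
      omega
    rw [hw _ hne, hz _ hne, e1 j' i hle, hsym]
  · have hi : j₀ ≠ 0 := by
      rintro rfl
      exact absurd hl (Fin.not_lt_zero _)
    obtain ⟨j', rfl⟩ := Fin.exists_succ_eq.mpr hi
    have hle : i ≤ j' := Fin.castSucc_lt_succ_iff.mp hl
    rw [e1 i j' hle, S.dd _ _ hle w]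
    have hne : i.castSucc ≠ j'.succ := hl.ne
    rw [hw _ hne, hz _ hne, e2 i j' hle, hsym]

theorem val_predAbove {n : ℕ} (i : Fin n) (x : Fin (n + 1)) :
    (i.predAbove x : ℕ) = if (i : ℕ) < x then (x : ℕ) - 1 else x := by
  unfold Fin.predAbove
  simp only [Fin.lt_def, Fin.val_castSucc]
  split_ifs <;> rfl

theorem val_succAbove {n : ℕ} (j : Fin (n + 1)) (a : Fin n) :
    (j.succAbove a : ℕ) = if (a : ℕ) < j then (a : ℕ) else a + 1 := by
  unfold Fin.succAbove
  simp only [Fin.lt_def, Fin.val_castSucc]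
  split_ifs <;> rfl

/-- The codegeneracies. -/
def codeg {n : ℕ} (i : Fin n) : Fin (n + 1) →o Fin n := ⟨i.predAbove, Fin.predAbove_right_monotone i⟩

theorem hyp3 (i : Fin (m + 2 + 1)) (x : Sph S P m) :
    IsBd S P m (fun j => if j = i.castSucc ∨ j = i.succ then x
      else ⟨P.pt (m + 2), fun l => P.map_pt (cofc l)⟩) := by
  refine ⟨S.map (codeg i) x.1, ?_⟩
  intro j
  change S.map (cofc j) (S.map (codeg i) x.1) = _
  rw [S.map_comp]
  by_cases hj : j = i.castSucc ∨ j = i.succ
  · change _ = (if j = i.castSucc ∨ j = i.succ then x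
      else ⟨P.pt (m + 2), fun l => P.map_pt (cofc l)⟩ : Sph S P m).1
    rw [if_pos hj]
    have h2 : (codeg i).comp (cofc j) = OrderHom.id := by
      ext a
      simp only [cofc, codeg, OrderHom.comp_coe, Function.comp_apply,
        OrderEmbedding.toOrderHom_coe, Fin.succAboveOrderEmb_apply, OrderHom.coe_mk,
        OrderHom.id_coe, id]
      have hj' : (j : ℕ) = i ∨ (j : ℕ) = i + 1 := by
        rcases hj with h | h
        · exact Or.inl (congrArg Fin.val h)
        · exact Or.inr (congrArg Fin.val h)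
      rw [val_predAbove, val_succAbove]
      split_ifs <;> omega
    rw [h2]
    exact S.map_id _
  · change _ = (if j = i.castSucc ∨ j = i.succ then x
      else ⟨P.pt (m + 2), fun l => P.map_pt (cofc l)⟩ : Sph S P m).1
    rw [if_neg hj]
    push Not at hj
    obtain ⟨h1, h2⟩ := hj
    have hn1 : (j : ℕ) ≠ i := fun h => h1 (Fin.ext h)
    have hn2 : (j : ℕ) ≠ i + 1 := fun h => h2 (Fin.ext h)
    refine map_of_miss x.2 _ (i.predAbove j) ?_
    intro a
    simp only [cofc, codeg, OrderHom.comp_coe, Function.comp_apply,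
      OrderEmbedding.toOrderHom_coe, Fin.succAboveOrderEmb_apply, OrderHom.coe_mk]
    intro he
    have he2 := congrArg Fin.val he
    rw [val_predAbove, val_predAbove, val_succAbove] at he2
    split_ifs at he2 <;> omega

end Main

/-- The stages of the tower. -/
theorem stage (hat : HatStatement) : StageStatement := by
  intro S P hK h0 h1 k
  match k with
  | 0 =>
    refine ⟨⟨PUnit, inferInstance, fun _ => PUnit.unit, fun _ => ⟨P.pt 0, ?_⟩, ?_, ?_, ?_⟩⟩
    · intro j g hj
      exact absurd hj (Nat.not_lt_zero j)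
    · intro τ
      exact Subsingleton.elim _ _
    · intro σ ψ _
      obtain ⟨y, hy0, hy1⟩ := h0 σ.1
      refine ⟨y, hy0, ?_⟩
      intro i
      fin_cases i
      exact hy1
    · intro _ _
      rfl
  | 1 =>
    refine ⟨⟨PUnit, inferInstance, fun _ => PUnit.unit, fun _ => ⟨P.pt 1, ?_⟩, ?_, ?_, ?_⟩⟩
    · intro j g _
      exact P.map_pt g
    · intro τ
      exact Subsingleton.elim _ _
    · intro σ ψ _
      obtain ⟨y, hy0, hy1, hy2⟩ := h1 σ.1 (faces_of_triv σ.2 0) (faces_of_triv σ.2 1)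
      refine ⟨y, hy0, ?_⟩
      intro i
      fin_cases i
      · exact hy1
      · exact hy2
    · intro h
      exact absurd h (by omega)
  | (m + 2) =>
    obtain ⟨π, inst, κ, hκ, hR⟩ := hat (m + 2) (by omega) (Sph S P m)
      ⟨P.pt (m + 2), fun l => P.map_pt (cofc l)⟩ (IsBd S P m) (hyp1 hK) (hyp2 hK) hyp3
    let _ := inst
    choose α hα using hκ
    let toSph : (S.Eil P (m + 2)).X (m + 2) → Sph S P m := fun x => ⟨x.1, faces_of_triv x.2⟩
    refine ⟨⟨π, inst, fun x => κ (toSph x), fun a => ⟨(α a).1, triv_of_faces (α a).2⟩, ?_, ?_, ?_⟩⟩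
    · intro τ
      refine (hR (fun i => toSph ((S.Eil P (m + 2)).d i τ))).mp ⟨τ.1, fun i => rfl⟩
    · intro σ ψ h
      have h2 : IsBd S P m (Fin.cons (toSph σ) (fun i => α (ψ i))) := by
        rw [hR, Fin.sum_univ_succ]
        simp only [Fin.cons_zero, Fin.cons_succ, Fin.val_zero, pow_zero, one_smul, Fin.val_succ,
          pow_succ, mul_neg, mul_one, neg_smul, Finset.sum_neg_distrib, hα]
        rw [h]
        exact add_neg_cancel _
      obtain ⟨y, hy⟩ := h2
      refine ⟨y, hy 0, fun i => ?_⟩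
      exact hy i.succ
    · intro h
      exact absurd h (by omega)

end Pool.Agent.Lib.MP_72b724_gt.H65
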